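import Mathlib
import Pool.Agent.Helper74.FB.PrimeArg

/-! # Bounded gaps between Goldbach partitions

For a positive proportion of the even `N ≤ X` there are `r` Goldbach partitions `N = p + q` whose primes `p`
lie in an interval of bounded length, at every scale `Y` between a power of `log X` and a constant multiple of
`X`. -/

set_option autoImplicit false

namespace Pool.Agent.Results.MP_73b532_nt.BoundedGapsBetweenPartitions

open Finset

open Classical in
/-- the `m ∈ [Y / 16, Y]` such that for all `h ∈ P` the numbers `p = m + h` and `N - p` are prime and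
`p ≤ N / 2` -/
noncomputable def clusters (P : Finset ℕ) (N Y : ℕ) : Finset ℕ :=
  (Icc 1 Y).filter (fun m => Y ≤ 16 * m ∧
    ∀ h ∈ P, (m + h).Prime ∧ (N - (m + h)).Prime ∧ 2 * (m + h) ≤ N)

/-- there is a set `P ⊆ [1, H]` of `r` shifts with at least `Y / (log X) ^ A` clusters -/
def HasClusters (r H A X Y N : ℕ) : Prop :=
  ∃ P ⊆ Icc 1 H, P.card = r ∧ (Y : ℝ) / Real.log X ^ A ≤ (((clusters P N Y).card : ℕ) : ℝ)

open Classical in
/-- **Bounded gaps between Goldbach partitions.** -/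
theorem result (r : ℕ) (hr : 1 ≤ r) : ∃ H A : ℕ, ∃ κ : ℝ, 0 < κ ∧ ∃ X₀ : ℕ, ∀ X : ℕ, X₀ ≤ X →
    ∀ Y : ℕ, Real.log X ^ A ≤ Y → (Y : ℝ) ≤ κ * X →
      κ * X ≤ (({N ∈ Icc 1 X | Even N ∧ HasClusters r H A X Y N}.card : ℕ) : ℝ) := by
  obtain ⟨H, A, h1⟩ := Pool.Agent.Helper74.FB.primeG r hr
  set Q : Polynomial ℤ := -Polynomial.X with hQ
  have hev : ∀ x : ℤ, Q.eval x = -x := by
    intro x
    simp [hQ]
  have hdeg : Q.natDegree = 1 := by
    rw [hQ, Polynomial.natDegree_neg, Polynomial.natDegree_X]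
  obtain ⟨κ, hκ, X₀, h2⟩ := h1 Q (by rw [hdeg])
  refine ⟨H, A, min κ (1 / 128), lt_min hκ (by norm_num), max X₀ (128 * H), fun X hX Y hY1 hY2 => ?_⟩
  have hX0 : (0 : ℝ) ≤ X := Nat.cast_nonneg X
  have hYκ : (Y : ℝ) ≤ κ * X := hY2.trans (mul_le_mul_of_nonneg_right (min_le_left _ _) hX0)
  have hY128 : 128 * Y ≤ X := by
    have h3 : (Y : ℝ) ≤ 1 / 128 * X := hY2.trans (mul_le_mul_of_nonneg_right (min_le_right _ _) hX0)
    have h4 : (128 : ℝ) * Y ≤ X := by linarith
    exact_mod_cast h4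
  have hXH : 128 * H ≤ X := (le_max_right _ _).trans hX
  refine (mul_le_mul_of_nonneg_right (min_le_left _ _) hX0).trans
    ((h2 X ((le_max_left _ _).trans hX) Y hY1 (by rw [hdeg, pow_one]; exact hYκ)).trans ?_)
  rw [Nat.cast_le]
  apply card_le_card
  intro N hN
  obtain ⟨hN1, hN2, hN3, P, hP, hPc, hcl⟩ := mem_filter.1 hN
  refine mem_filter.2 ⟨hN1, ?_, P, hP, hPc, hcl.trans ?_⟩
  · rw [hev] at hN3
    have h4 : Even (N : ℤ) := by
      rw [← Int.not_odd_iff_even]
      intro h5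
      apply hN3
      rw [← even_iff_two_dvd]
      exact h5.add_odd (by decide)
    exact_mod_cast h4
  · rw [Nat.cast_le]
    apply card_le_card
    intro m hm
    obtain ⟨hm1, hm2, hm3⟩ := mem_filter.1 hm
    unfold clusters
    refine mem_filter.2 ⟨hm1, hm2, fun h hh => ?_⟩
    obtain ⟨h4, q, hq, hq2⟩ := hm3 h hh
    have h5 : N - (m + h) = q := by
      rw [hev] at hq2
      omega
    have h6 := (mem_Icc.1 (hP hh)).2
    have h7 := (mem_Icc.1 hm1).2
    refine ⟨h4, ?_, by omega⟩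
    rw [h5]
    exact hq

end Pool.Agent.Results.MP_73b532_nt.BoundedGapsBetweenPartitions
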