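import Mathlib
import Pool.Agent.Helper74.FB.JQPrime

/-! # Common primes in Goldbach partitions of several numbers, with almost prime neighbours

`S` is an admissible set of shifts with a prescribed element `h₀`. For a positive proportion of the `J`-tuples of
even numbers `N j ≤ X` there are, at every scale `Y`, primes `p = x + h₀` such that all the `N j - p` are primes and
for `r` further shifts `h ∈ S` the numbers `x + h` and `N j - (x + h)` have at most two prime factors. -/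

set_option autoImplicit false

namespace Pool.Agent.Results.MP_73b532_nt.CommonPartitionsWithNeighbours

open Finset

/-- `x` is `> 1` and has at most two prime factors, counted with multiplicity -/
def AlmostPrime (x : ℕ) : Prop := 1 < x ∧ x.primeFactorsList.length ≤ 2

/-- `p` and all the `N j - p` are prime, and `p ≤ N j / 2` -/
def Partition {J : ℕ} (N : Fin J → ℕ) (p : ℕ) : Prop := p.Prime ∧ ∀ j, (N j - p).Prime ∧ 2 * p ≤ N j

/-- `a` and all the `N j - a` have at most two prime factors, and `a ≤ N j / 2` -/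
def AlmostPartition {J : ℕ} (N : Fin J → ℕ) (a : ℕ) : Prop :=
  AlmostPrime a ∧ ∀ j, AlmostPrime (N j - a) ∧ 2 * a ≤ N j

/-- the set of shifts is admissible: for every prime `p` some class `v` is such that `p` divides no `v + h` -/
def Admissible (S : Finset ℕ) : Prop := ∀ p : ℕ, p.Prime → ∃ v : ℤ, ∀ h ∈ S, ¬ (p : ℤ) ∣ v + h

open Classical in
/-- the `x ∈ [Y / 16, Y]` such that `x + h₀` gives prime partitions and the `x + h`, `h ∈ T`, give almost prime
partitions of all the `N j` -/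
noncomputable def cluster {J : ℕ} (h₀ : ℕ) (T : Finset ℕ) (N : Fin J → ℕ) (Y : ℕ) : Finset ℕ :=
  (Icc 1 Y).filter (fun x => Y ≤ 16 * x ∧ Partition N (x + h₀) ∧ ∀ h ∈ T, AlmostPartition N (x + h))

/-- there are `r` shifts in `S` different from `h₀` with at least `Y / (log X) ^ A` clusters -/
def HasClusters {J : ℕ} (S : Finset ℕ) (h₀ A r X Y : ℕ) (N : Fin J → ℕ) : Prop :=
  ∃ T ⊆ S.erase h₀, T.card = r ∧ (Y : ℝ) / Real.log X ^ A ≤ (((cluster h₀ T N Y).card : ℕ) : ℝ)

open Classical in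
/-- **Common primes in partitions, with almost prime neighbours.** -/
theorem result (J r : ℕ) : ∃ K A : ℕ, ∀ S : Finset ℕ, K ≤ S.card → Admissible S → ∀ h₀ ∈ S,
    ∃ κ : ℝ, 0 < κ ∧ ∃ X₀ : ℕ, ∀ X : ℕ, X₀ ≤ X → ∀ Y : ℕ, Real.log X ^ A ≤ Y → (Y : ℝ) ≤ κ * X →
      κ * (X : ℝ) ^ J ≤
        (({N ∈ Fintype.piFinset (fun _ : Fin J => Icc 1 X) |
          (∀ j, Even (N j)) ∧ HasClusters S h₀ A r X Y N}.card : ℕ) : ℝ) := by
  obtain ⟨K, A, h1⟩ := Pool.Agent.Helper74.FB.primeJQ J r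
  refine ⟨K, A + 1, fun S hS hadm h₀ hh₀ => ?_⟩
  obtain ⟨Q, hQ⟩ : ∃ Q : Fin J → Polynomial ℤ, Q = fun _ => -Polynomial.X := ⟨_, rfl⟩
  have hev : ∀ j, ∀ x : ℤ, (Q j).eval x = -x := by
    intro j x
    simp [hQ]
  have hdeg : ∀ j, (Q j).natDegree = 1 := by
    intro j
    rw [hQ]
    simp only
    rw [Polynomial.natDegree_neg, Polynomial.natDegree_X]
  obtain ⟨κ, hκ, X₀, h2⟩ := h1 Q (fun j => by rw [hdeg j]) S hS h₀ hh₀ (by
    intro p hp
    obtain ⟨v, hv⟩ := hadm p hp
    refine ⟨v, hv, fun j => ⟨0, fun h hh hd => hv h hh ?_⟩⟩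
    rw [hev, zero_add] at hd
    exact (dvd_neg).1 hd)
  obtain ⟨B, hB⟩ : ∃ B : ℕ, ∀ h ∈ S, h ≤ B :=
    ⟨∑ h ∈ S, h, fun h hh => single_le_sum (f := fun h : ℕ => h) (fun _ _ => Nat.zero_le _) hh⟩
  have tN : Filter.Tendsto (fun N : ℕ => (N : ℝ)) Filter.atTop Filter.atTop := tendsto_natCast_atTop_atTop
  have hlog : Filter.Tendsto (fun N : ℕ => Real.log (N : ℝ)) Filter.atTop Filter.atTop :=
    Real.tendsto_log_atTop.comp tN
  obtain ⟨X₁, hX₁⟩ := Filter.eventually_atTop.1 (hlog.eventually_ge_atTop 64)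
  refine ⟨min κ (1 / 256), lt_min hκ (by norm_num), max (max X₀ X₁) (256 * B + 2), fun X hX Y hY1 hY2 => ?_⟩
  have hXX₀ : X₀ ≤ X := ((le_max_left _ _).trans (le_max_left _ _)).trans hX
  have hXX₁ : X₁ ≤ X := ((le_max_right _ _).trans (le_max_left _ _)).trans hX
  have hXB : 256 * B + 2 ≤ X := (le_max_right _ _).trans hX
  have hX0 : (0 : ℝ) ≤ X := Nat.cast_nonneg X
  have hL := hX₁ X hXX₁
  have hYκ : (Y : ℝ) ≤ κ * X := hY2.trans (mul_le_mul_of_nonneg_right (min_le_left _ _) hX0)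
  have hY256 : 256 * Y ≤ X := by
    have h3 : (Y : ℝ) ≤ 1 / 256 * X := hY2.trans (mul_le_mul_of_nonneg_right (min_le_right _ _) hX0)
    have h4 : (256 : ℝ) * Y ≤ X := by linarith
    exact_mod_cast h4
  have hLA : Real.log X ^ A ≤ Real.log X ^ (A + 1) := pow_le_pow_right₀ (by linarith) (Nat.le_succ A)
  have hYL : (64 : ℝ) ≤ Y := by
    refine le_trans ?_ hY1
    calc (64 : ℝ) ≤ Real.log X := hL
      _ = Real.log X ^ 1 := (pow_one _).symm
      _ ≤ Real.log X ^ (A + 1) := pow_le_pow_right₀ (by linarith) (by omega)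
  have hY64 : 64 ≤ Y := by exact_mod_cast hYL
  refine (mul_le_mul_of_nonneg_right (min_le_left _ _) (by positivity)).trans
    ((h2 X hXX₀ Y (hLA.trans hY1) hYκ (fun j => by rw [hdeg j, pow_one]; exact hYκ)).trans ?_)
  rw [Nat.cast_le]
  apply card_le_card
  intro N hN
  obtain ⟨hN1, hN2, T, hT, hTc, hcl⟩ := mem_filter.1 hN
  have hcl2 : (Y : ℝ) / Real.log X ^ (A + 1) ≤ (((cluster h₀ T N Y).card : ℕ) : ℝ) := by
    have h3 : (Y : ℝ) / Real.log X ^ (A + 1) ≤ (Y : ℝ) / Real.log X ^ A := by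
      apply div_le_div_of_nonneg_left (by positivity) _ hLA
      have : 0 < Real.log X := by linarith
      positivity
    refine h3.trans (hcl.trans ?_)
    rw [Nat.cast_le]
    apply card_le_card
    intro x hx
    obtain ⟨hx1, hx2, hx3, hx4, hx5⟩ := mem_filter.1 hx
    have h7 := (mem_Icc.1 hx1).2
    unfold cluster
    refine mem_filter.2 ⟨hx1, hx2, ⟨hx3, fun j => ?_⟩, fun h hh => ⟨?_, fun j => ?_⟩⟩
    · obtain ⟨q, hq, hq2⟩ := hx4 j
      have h8 : N j - (x + h₀) = q := by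
        rw [hev] at hq2
        omega
      have h9 := hN2 j
      have h10 := hB h₀ hh₀
      refine ⟨?_, by omega⟩
      rw [h8]
      exact hq
    · obtain ⟨q, hq, hq2, hq3⟩ := (hx5 h hh).1
      have h8 : x + h = q := by
        have : ((x + h : ℕ) : ℤ) = q := by
          push_cast
          exact hq2.symm
        exact_mod_cast this
      rw [h8]
      exact ⟨hq, hq3⟩
    · obtain ⟨q, hq, hq2, hq3⟩ := (hx5 h hh).2 j
      have h8 : N j - (x + h) = q := by
        rw [hev] at hq2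
        omega
      have h9 := hN2 j
      have h10 := hB h (mem_erase.1 (hT hh)).2
      refine ⟨?_, by omega⟩
      rw [h8]
      exact ⟨hq, hq3⟩
  refine mem_filter.2 ⟨hN1, ?_, T, hT, hTc, hcl2⟩
  have hpos : 0 < (((cluster h₀ T N Y).card : ℕ) : ℝ) := by
    refine lt_of_lt_of_le ?_ hcl2
    have : 0 < Real.log X := by linarith
    positivity
  obtain ⟨x, hx⟩ := card_pos.1 (by exact_mod_cast hpos : 0 < (cluster h₀ T N Y).card)
  unfold cluster at hx
  obtain ⟨-, hx2, ⟨hp, hq⟩, -⟩ := mem_filter.1 hx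
  intro j
  obtain ⟨h4, h5⟩ := hq j
  have o1 : Odd (x + h₀) := hp.odd_of_ne_two (by omega)
  have o2 : Odd (N j - (x + h₀)) := h4.odd_of_ne_two (by omega)
  have o3 := o2.add_odd o1
  rwa [Nat.sub_add_cancel (by omega)] at o3

end Pool.Agent.Results.MP_73b532_nt.CommonPartitionsWithNeighbours
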