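import Mathlib
import Pool.Agent.Helper74.FB.Dense

/-! # Goldbach partitions with the smaller prime in an arbitrary dense set of primes

`𝒬` is any set of primes `≤ Y` with at least `d Y / log Y` elements, and `(a i, b i)`, `i ∈ I`, are sufficiently many
pairs of integers. For a positive proportion of the `J`-tuples of even `N j ≤ X` there are many `p ∈ 𝒬` such that all
the `N j - p` are primes and for `r` of the pairs all the `N j - a i * p - b i` have at most two prime factors. -/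

set_option autoImplicit false

namespace Pool.Agent.Results.MP_73b532_nt.DenseSetsOfPrimes

open Finset

/-- the integer `z` is `> 1` and has at most two prime factors, counted with multiplicity -/
def AlmostPrime (z : ℤ) : Prop := ∃ q : ℕ, 1 < q ∧ (q : ℤ) = z ∧ q.primeFactorsList.length ≤ 2

/-- the pairs `(a i, b i)`, `i ∈ I`, are distinct, `a i ≠ 0`, and for every prime `p` and every `u` prime to `p` the
numbers `a i * u + b i` miss a class modulo `p` -/
def Admissible (I : Finset ℕ) (a b : ℕ → ℤ) : Prop :=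
  (∀ i ∈ I, ∀ i' ∈ I, a i = a i' → b i = b i' → i = i') ∧ (∀ i ∈ I, a i ≠ 0) ∧
    ∀ p : ℕ, p.Prime → ∀ u : ℤ, ¬ (p : ℤ) ∣ u → ∃ w : ℤ, ∀ i ∈ I, ¬ (p : ℤ) ∣ w - (a i * u + b i)

/-- `N j = p + q j` with primes `q j`, `p ≤ N j / 2`, and all the `N j - a i * p - b i`, `i ∈ P`, have at most two
prime factors -/
def Good {J : ℕ} (a b : ℕ → ℤ) (P : Finset ℕ) (N : Fin J → ℕ) (p : ℕ) : Prop :=
  ∀ j, (N j - p).Prime ∧ 2 * p ≤ N j ∧ ∀ i ∈ P, AlmostPrime ((N j : ℤ) - a i * p - b i)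

open Classical in
/-- for `r` of the pairs, different from the `i₀`-th, at least `B` of the `p ∈ 𝒬` are good -/
def Many {J : ℕ} (I : Finset ℕ) (i₀ : ℕ) (a b : ℕ → ℤ) (r : ℕ) (𝒬 : Finset ℕ) (B : ℝ) (N : Fin J → ℕ) : Prop :=
  ∃ P ⊆ I.erase i₀, P.card = r ∧ B ≤ (((𝒬.filter (fun p => Good a b P N p)).card : ℕ) : ℝ)

open Classical in
/-- **Partitions with the smaller prime in an arbitrary dense set of primes.** -/
theorem result (J r : ℕ) : ∃ K A : ℕ, ∀ (I : Finset ℕ) (a b : ℕ → ℤ), K ≤ I.card → Admissible I a b →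
    ∀ i₀ ∈ I, a i₀ = 1 → b i₀ = 0 → ∀ d : ℝ, 0 < d →
    ∃ κ : ℝ, 0 < κ ∧ ∃ X₀ : ℕ, ∀ X : ℕ, X₀ ≤ X → ∀ Y : ℕ, Real.log X ^ A ≤ Y → (Y : ℝ) ≤ κ * X →
      ∀ 𝒬 ⊆ (Icc 1 Y).filter Nat.Prime, d * (Y / Real.log Y) ≤ (𝒬.card : ℝ) →
      κ * (X : ℝ) ^ J ≤
        (({N ∈ Fintype.piFinset (fun _ : Fin J => Icc 1 X) |
          (∀ j, Even (N j)) ∧ Many I i₀ a b r 𝒬 (Y / Real.log X ^ A) N}.card : ℕ) : ℝ) := by
  obtain ⟨K, A, h1⟩ := Pool.Agent.Helper74.FB.denseJQ J r
  refine ⟨K, A + 1, fun I a b hI hadm i₀ hi₀ ha₀ hb₀ d hd => ?_⟩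
  obtain ⟨hdist, hne, hcov⟩ := hadm
  obtain ⟨Q, hQ⟩ : ∃ Q : Fin J → ℕ → Polynomial ℤ, Q = fun _ i =>
    -(Polynomial.C (a i) * Polynomial.X + Polynomial.C (b i)) := ⟨_, rfl⟩
  have hev : ∀ j i, ∀ x : ℤ, (Q j i).eval x = -(a i * x + b i) := by
    intro j i x
    simp [hQ]
  have hdeg : ∀ j, ∀ i ∈ I, (Q j i).natDegree = 1 := by
    intro j i hi
    rw [hQ]
    simp only
    rw [Polynomial.natDegree_neg]
    exact Polynomial.natDegree_linear (hne i hi)
  obtain ⟨κ, hκ, X₀, h3⟩ := h1 I hI Q (fun j i hi => by rw [hdeg j i hi]) (by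
      intro j i hi i' hi' heq
      have e0 : (Q j i).eval 0 = (Q j i').eval 0 := by rw [heq]
      have e1 : (Q j i).eval 1 = (Q j i').eval 1 := by rw [heq]
      rw [hev, hev] at e0 e1
      exact hdist i hi i' hi' (by linarith) (by linarith)) (by
      intro p hp u hu j
      obtain ⟨w, hw⟩ := hcov p hp u hu
      refine ⟨w, fun i hi hd => hw i hi ?_⟩
      rw [hev] at hd
      rw [sub_eq_add_neg]
      exact hd) i₀ hi₀ d hd
  have tN : Filter.Tendsto (fun N : ℕ => (N : ℝ)) Filter.atTop Filter.atTop :=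
    tendsto_natCast_atTop_atTop
  have hlog : Filter.Tendsto (fun N : ℕ => Real.log (N : ℝ)) Filter.atTop Filter.atTop :=
    Real.tendsto_log_atTop.comp tN
  obtain ⟨X₁, hX₁⟩ := Filter.eventually_atTop.1 (hlog.eventually_ge_atTop 48)
  refine ⟨min κ (1 / 64), lt_min hκ (by norm_num), max (max X₀ X₁) 256, fun X hX Y hY1 hY2 𝒬 h𝒬 hcard => ?_⟩
  have hX0 : (0 : ℝ) ≤ X := Nat.cast_nonneg X
  have hlogX : 48 ≤ Real.log X := hX₁ X (((le_max_right _ _).trans (le_max_left _ _)).trans hX)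
  have hX256 : 256 ≤ X := (le_max_right _ _).trans hX
  have hAA : Real.log X ^ A ≤ Real.log X ^ (A + 1) := pow_le_pow_right₀ (by linarith) (by omega)
  have hY1' : Real.log X ^ A ≤ Y := hAA.trans hY1
  have hYpos : (0 : ℝ) < Y := by
    have h4 : (0 : ℝ) < Real.log X ^ (A + 1) := by
      have : 0 < Real.log X := by linarith
      positivity
    linarith
  have hYκ : (Y : ℝ) ≤ κ * X := hY2.trans (mul_le_mul_of_nonneg_right (min_le_left _ _) hX0)
  have hY64 : 64 * Y ≤ X := by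
    have h3 : (Y : ℝ) ≤ 1 / 64 * X := hY2.trans (mul_le_mul_of_nonneg_right (min_le_right _ _) hX0)
    have h4 : (64 : ℝ) * Y ≤ X := by linarith
    exact_mod_cast h4
  refine (mul_le_mul_of_nonneg_right (min_le_left _ _) (by positivity)).trans
    ((h3 X (((le_max_left _ _).trans (le_max_left _ _)).trans hX) Y hY1' hYκ
      (fun j i hi => by rw [hdeg j i hi, pow_one]; exact hYκ) 𝒬 h𝒬 hcard).trans ?_)
  rw [Nat.cast_le]
  apply card_le_card
  intro N hN
  obtain ⟨hN1, hN2, P, hP, hPc, hcl⟩ := mem_filter.1 hN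
  have hLpos : 0 < Real.log X := by linarith
  have hcl1 : (Y : ℝ) / Real.log X ^ A ≤ (((𝒬.filter (fun p => Good a b P N p)).card : ℕ) : ℝ) := by
    refine hcl.trans ?_
    rw [Nat.cast_le]
    apply card_le_card
    intro p hp
    obtain ⟨hp1, hp2⟩ := mem_filter.1 hp
    have hpY := (mem_Icc.1 (mem_filter.1 (h𝒬 hp1)).1).2
    refine mem_filter.2 ⟨hp1, fun j => ?_⟩
    obtain ⟨⟨q, hq, hq2⟩, hq3⟩ := hp2 j
    have h5 := hN2 j
    rw [hev, ha₀, hb₀] at hq2
    have h6 : N j - p = q := by omega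
    refine ⟨?_, by omega, fun i hi => ?_⟩
    · rw [h6]
      exact hq
    · obtain ⟨z, hz, hz2, hz3⟩ := hq3 i hi
      rw [hev] at hz2
      exact ⟨z, hz, by rw [hz2]; ring, hz3⟩
  have hcl2 : (Y : ℝ) / Real.log X ^ (A + 1) ≤ (((𝒬.filter (fun p => Good a b P N p)).card : ℕ) : ℝ) :=
    (div_le_div_of_nonneg_left hYpos.le (by positivity) hAA).trans hcl1
  refine mem_filter.2 ⟨hN1, ?_, P, hP, hPc, hcl2⟩
  -- an odd element
  have h48 : (48 : ℝ) ≤ (((𝒬.filter (fun p => Good a b P N p)).card : ℕ) : ℝ) := by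
    refine le_trans ?_ hcl1
    rw [le_div_iff₀ (by positivity)]
    calc (48 : ℝ) * Real.log X ^ A ≤ Real.log X * Real.log X ^ A :=
          mul_le_mul_of_nonneg_right hlogX (by positivity)
      _ = Real.log X ^ (A + 1) := by ring
      _ ≤ Y := hY1
  have h48n : 48 ≤ (𝒬.filter (fun p => Good a b P N p)).card := by exact_mod_cast h48
  obtain ⟨p, hp, hp2⟩ : ∃ p ∈ 𝒬.filter (fun p => Good a b P N p), p ≠ 2 := by
    by_contra hcon
    push Not at hcon
    have h5 : 𝒬.filter (fun p => Good a b P N p) ⊆ {2} := fun p hp => mem_singleton.2 (hcon p hp)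
    have h6 := card_le_card h5
    rw [card_singleton] at h6
    omega
  obtain ⟨hpQ, hrep⟩ := mem_filter.1 hp
  have hp3 := (mem_filter.1 (h𝒬 hpQ)).2
  intro j
  obtain ⟨hq1, hq2, -⟩ := hrep j
  have h5 := hN2 j
  have o1 : Odd p := hp3.odd_of_ne_two hp2
  have o2 : Odd (N j - p) := hq1.odd_of_ne_two (by omega)
  have o3 := o2.add_odd o1
  rwa [Nat.sub_add_cancel (by omega)] at o3

end Pool.Agent.Results.MP_73b532_nt.DenseSetsOfPrimes
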