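import Mathlib
import Pool.Agent.Helper74.FB.PrimeQ

/-! # Goldbach partitions `N = p + q` such that `p` and `q` have almost prime neighbours

For a positive proportion of the even `N ≤ X` there are many Goldbach partitions `N = p + q` such that each of
`T₁` given groups of shifts contains an `h` for which `p + h` has at most two prime factors, and each of `T₂`
given groups of shifts contains an `h` for which `q - h` has at most two prime factors; the primes `p` are at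
an arbitrary scale `Y` between a power of `log X` and a constant multiple of `X`. -/

set_option autoImplicit false

namespace Pool.Agent.Results.MP_73b532_nt.PartitionsWithNeighbours

open Finset

/-- the integer `z` is `> 1` and has at most two prime factors, counted with multiplicity -/
def AlmostPrime (z : ℤ) : Prop := ∃ q : ℕ, 1 < q ∧ (q : ℤ) = z ∧ q.primeFactorsList.length ≤ 2

/-- an admissible family of shifts which contains `0`: the shifts are distinct and for every prime `p` there is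
a `v` such that none of the numbers `v + h g i` is divisible by `p` -/
def Admissible {T K : ℕ} (h : Fin T → Fin K → ℤ) : Prop :=
  Function.Injective (fun x : Fin T × Fin K => h x.1 x.2) ∧ (∃ g i, h g i = 0) ∧
    ∀ p : ℕ, p.Prime → ∃ v : ℤ, ∀ g i, ¬ (p : ℤ) ∣ v + h g i

open Classical in
/-- the primes `p ∈ [Y / 16, Y]` such that `p ≤ N / 2`, `N - p` is prime, `p + h₁ g (τ₁ g)` has at most two
prime factors for all `g`, and `N - p - h₂ g (τ₂ g)` has at most two prime factors for all `g` -/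
noncomputable def partitions {T₁ K₁ T₂ K₂ : ℕ} (h₁ : Fin T₁ → Fin K₁ → ℤ) (h₂ : Fin T₂ → Fin K₂ → ℕ)
    (τ₁ : Fin T₁ → Fin K₁) (τ₂ : Fin T₂ → Fin K₂) (N Y : ℕ) : Finset ℕ :=
  (Icc 1 Y).filter (fun p : ℕ => Y ≤ 16 * p ∧ p.Prime ∧ (N - p).Prime ∧ 2 * p ≤ N ∧
    (∀ g, AlmostPrime ((p : ℤ) + h₁ g (τ₁ g))) ∧ ∀ g, AlmostPrime ((N : ℤ) - p - h₂ g (τ₂ g)))

/-- for one choice of shifts, one in every group, there are at least `B` such primes -/
def Many {T₁ K₁ T₂ K₂ : ℕ} (h₁ : Fin T₁ → Fin K₁ → ℤ) (h₂ : Fin T₂ → Fin K₂ → ℕ) (Y : ℕ) (B : ℝ)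
    (N : ℕ) : Prop :=
  ∃ (τ₁ : Fin T₁ → Fin K₁) (τ₂ : Fin T₂ → Fin K₂), B ≤ (((partitions h₁ h₂ τ₁ τ₂ N Y).card : ℕ) : ℝ)

open Classical in
/-- **Goldbach partitions with almost prime neighbours.** -/
theorem result (T₁ T₂ : ℕ) (hT₁ : 1 ≤ T₁) (hT₂ : 1 ≤ T₂) : ∃ K₁ K₂ A : ℕ, 1 ≤ K₁ ∧ 1 ≤ K₂ ∧
    ∀ (h₁ : Fin T₁ → Fin K₁ → ℤ) (h₂ : Fin T₂ → Fin K₂ → ℕ), Admissible h₁ →
    Admissible (fun g i => (h₂ g i : ℤ)) →
    ∃ κ : ℝ, 0 < κ ∧ ∃ X₀ : ℕ, ∀ X : ℕ, X₀ ≤ X → ∀ Y : ℕ, Real.log X ^ A ≤ Y → (Y : ℝ) ≤ κ * X →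
      κ * X ≤ (({N ∈ Icc 1 X | Even N ∧ Many h₁ h₂ Y (Y / Real.log X ^ A) N}.card : ℕ) : ℝ) := by
  obtain ⟨K₁, K₂, A, hK₁, hK₂, H⟩ := Pool.Agent.Helper74.FB.primeQ T₁ T₂ hT₁ hT₂
  refine ⟨K₁, K₂, A + 1, hK₁, hK₂, ?_⟩
  intro h₁ h₂ hadm₁ hadm₂
  obtain ⟨hi₁, hz₁, ha₁⟩ := hadm₁
  obtain ⟨hi₂, hz₂, ha₂⟩ := hadm₂
  set Q : Polynomial ℤ := -Polynomial.X with hQ
  have hev : ∀ x : ℤ, Q.eval x = -x := by
    intro x
    simp [hQ]
  have hdeg : Q.natDegree = 1 := by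
    rw [hQ, Polynomial.natDegree_neg, Polynomial.natDegree_X]
  obtain ⟨κ, hκ, X₀, h3⟩ := H Q (by rw [hdeg]) h₁ hi₁ h₂ (by
      intro x y hxy
      apply hi₂
      exact congrArg (fun n : ℕ => (n : ℤ)) hxy) hz₁ (by
      obtain ⟨g, i, hgi⟩ := hz₂
      have h5 : ((h₂ g i : ℕ) : ℤ) = 0 := hgi
      exact ⟨g, i, by exact_mod_cast h5⟩) (by
      intro p hp
      obtain ⟨v, hv⟩ := ha₁ p hp
      obtain ⟨u, hu⟩ := ha₂ p hp
      refine ⟨v, v - u, hv, fun g i hd => hu g i ?_⟩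
      rw [hev] at hd
      have e : v - u + -(v + (h₂ g i : ℤ)) = -(u + h₂ g i) := by ring
      rw [e, dvd_neg] at hd
      exact hd)
  have tN : Filter.Tendsto (fun N : ℕ => (N : ℝ)) Filter.atTop Filter.atTop :=
    tendsto_natCast_atTop_atTop
  have hlog : Filter.Tendsto (fun N : ℕ => Real.log (N : ℝ)) Filter.atTop Filter.atTop :=
    Real.tendsto_log_atTop.comp tN
  obtain ⟨X₁, hX₁⟩ := Filter.eventually_atTop.1 (hlog.eventually_ge_atTop 48)
  refine ⟨min κ (1 / 128), lt_min hκ (by norm_num), max X₀ X₁, fun X hX Y hY1 hY2 => ?_⟩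
  have hX0 : (0 : ℝ) ≤ X := Nat.cast_nonneg X
  have hlogX : 48 ≤ Real.log X := hX₁ X ((le_max_right _ _).trans hX)
  have hAA : Real.log X ^ A ≤ Real.log X ^ (A + 1) := pow_le_pow_right₀ (by linarith) (by omega)
  have hY1' : Real.log X ^ A ≤ Y := hAA.trans hY1
  have hY48 : 48 ≤ Y := by
    have h4 : Real.log X ≤ Real.log X ^ (A + 1) := by
      calc Real.log X = Real.log X ^ 1 := (pow_one _).symm
        _ ≤ _ := pow_le_pow_right₀ (by linarith) (by omega)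
    have : (48 : ℝ) ≤ Y := by linarith
    exact_mod_cast this
  have hYκ : (Y : ℝ) ≤ κ * X := hY2.trans (mul_le_mul_of_nonneg_right (min_le_left _ _) hX0)
  have hY128 : 128 * Y ≤ X := by
    have h3 : (Y : ℝ) ≤ 1 / 128 * X := hY2.trans (mul_le_mul_of_nonneg_right (min_le_right _ _) hX0)
    have h4 : (128 : ℝ) * Y ≤ X := by linarith
    exact_mod_cast h4
  refine (mul_le_mul_of_nonneg_right (min_le_left _ _) hX0).trans
    ((h3 X ((le_max_left _ _).trans hX) Y hY1' (by rw [hdeg, pow_one]; exact hYκ)).trans ?_)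
  rw [Nat.cast_le]
  apply card_le_card
  intro N hN
  obtain ⟨hN1, hN2, hN3⟩ := mem_filter.1 hN
  obtain ⟨τ₁, τ₂, hcl⟩ := hN3
  have hLpos : 0 < Real.log X ^ A := by positivity
  have hYpos : (0 : ℝ) < Y := by exact_mod_cast (by omega : 0 < Y)
  have hne := lt_of_lt_of_le (div_pos hYpos hLpos) hcl
  rw [Nat.cast_pos, card_pos] at hne
  refine mem_filter.2 ⟨hN1, ?_, ?_⟩
  · obtain ⟨p, hp⟩ := hne
    obtain ⟨hp1, hp2, hp3, ⟨q, hq, hq2⟩, -, -⟩ := mem_filter.1 hp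
    have hp4 := (mem_Icc.1 hp1).2
    rw [hev] at hq2
    have hpo : Odd p := hp3.odd_of_ne_two (by omega)
    have hqo : Odd q := hq.odd_of_ne_two (by omega)
    have : N = q + p := by omega
    rw [this]
    exact hqo.add_odd hpo
  · refine ⟨τ₁, τ₂, ?_⟩
    refine (div_le_div_of_nonneg_left hYpos.le hLpos hAA).trans (hcl.trans ?_)
    rw [Nat.cast_le]
    apply card_le_card
    intro p hp
    obtain ⟨hp1, hp2, hp3, ⟨q, hq, hq2⟩, hp4, hp5⟩ := mem_filter.1 hp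
    have hp6 := (mem_Icc.1 hp1).2
    rw [hev] at hq2
    unfold partitions
    refine mem_filter.2 ⟨hp1, hp2, hp3, ?_, by omega, fun g => hp4 g, fun g => ?_⟩
    · have : N - p = q := by omega
      rw [this]
      exact hq
    · obtain ⟨z, hz1, hz2, hz3⟩ := hp5 g
      rw [hev] at hz2
      exact ⟨z, hz1, by rw [hz2]; ring, hz3⟩

end Pool.Agent.Results.MP_73b532_nt.PartitionsWithNeighbours
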